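import Mathlib
import Pool.Agent.R851.CS.Limit

/-!
# Consecutive sums of a random subset of `{1, …, n}`

For every `0 < p < 1` there is a constant `c > 0` such that the `p`-random subset `A` of
`{1, …, n}` has, with probability tending to `1`, at least `c n ^ 2` different consecutive sums.

Idea of the proof.  Let `W(x, y)` be the sum of the elements of `A` in `(x, y]`.  Take the starting
points `x ∈ A` in an interval `U` of length `n / (64 s ^ 2)` above `n / 4` and the end points
`y ∈ A` in `K` intervals `V_1 < V_2 < …` of length `l = n / (8 K)` above `n / 2`, separated by gaps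
of length `l`.  In the gap in front of `V_j` one finds, with overwhelming probability, for each
`k < L ≈ log₂ n` a pair of patterns of `A` (the same number of elements, total sums differing by
`2 ^ k`) which can be exchanged; exchanging them is measure preserving, and it moves all the sums
`W(x, y)`, `x ∈ U`, `y ∈ V_j`, by the same amount, which takes all the `2 ^ L` values
`0, …, 2 ^ L - 1`.  Two different values of the shift which send `W(x, y)` to the set of the
sums with the end point in an earlier interval use different starting points, so this happens with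
conditional probability at most `|U| / 2 ^ L`, which is small.  The exponential moment of the
numbers of coincidences is estimated by multiplying over `j`.  The coincidences between two sums
with the end points in the same interval are handled by a similar exchange for windows of `r`
consecutive elements of `A`.
-/

set_option autoImplicit false

open Filter Topology

namespace Pool.Agent.Results.MP_a40b8c_co.RandomConsecutiveSums

/-- The set of the consecutive sums of the increasing enumeration `a` of the finite set `A`: the
numbers `∑_{u = i}^{j} a_u` for `i ≤ j`. -/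
def consecutiveSums (A : Finset ℕ) : Finset ℕ :=
  ((Finset.univ : Finset (Fin A.card × Fin A.card)).filter (fun ij => ij.1 ≤ ij.2)).image
    (fun ij => ∑ u ∈ Finset.Icc ij.1 ij.2, A.orderEmbOfFin rfl u)

open Classical in
/-- The probability that the `p`-random subset `A` of `{1, …, n}` has the property `Q`: the sum
over all the subsets `A` with the property `Q` of `p ^ |A| (1 - p) ^ (n - |A|)`. -/
noncomputable def prob (p : ℝ) (n : ℕ) (Q : Finset ℕ → Prop) : ℝ :=
  ∑ A ∈ (Finset.Icc 1 n).powerset.filter Q, p ^ A.card * (1 - p) ^ (n - A.card)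

theorem sub_consecutiveSums (A : Finset ℕ) : R851CS.consecSums A ⊆ consecutiveSums A := by
  intro v hv
  unfold R851CS.consecSums at hv
  obtain ⟨xy, hxy, rfl⟩ := Finset.mem_image.1 hv
  rw [Finset.mem_filter, Finset.mem_product] at hxy
  obtain ⟨⟨hx, hy⟩, hle⟩ := hxy
  have hr := Finset.range_orderEmbOfFin A (k := A.card) rfl
  obtain ⟨i, hi⟩ : xy.1 ∈ Set.range (A.orderEmbOfFin (k := A.card) rfl) := by rw [hr]; exact hx
  obtain ⟨j, hj⟩ : xy.2 ∈ Set.range (A.orderEmbOfFin (k := A.card) rfl) := by rw [hr]; exact hy
  unfold consecutiveSums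
  rw [Finset.mem_image]
  refine ⟨(i, j), ?_, ?_⟩
  · rw [Finset.mem_filter]
    refine ⟨Finset.mem_univ _, ?_⟩
    rw [← hi, ← hj] at hle
    exact (A.orderEmbOfFin rfl).le_iff_le.1 hle
  · symm
    have himg : A.filter (fun a => xy.1 ≤ a ∧ a ≤ xy.2)
        = (Finset.Icc i j).image (A.orderEmbOfFin (k := A.card) rfl) := by
      ext a
      rw [Finset.mem_filter, Finset.mem_image]
      constructor
      · rintro ⟨ha, h1, h2⟩
        obtain ⟨u, hu⟩ : a ∈ Set.range (A.orderEmbOfFin (k := A.card) rfl) := by rw [hr]; exact ha
        rw [← hi, ← hu] at h1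
        rw [← hj, ← hu] at h2
        refine ⟨u, ?_, hu⟩
        rw [Finset.mem_Icc]
        exact ⟨(A.orderEmbOfFin rfl).le_iff_le.1 h1, (A.orderEmbOfFin rfl).le_iff_le.1 h2⟩
      · rintro ⟨u, hu, rfl⟩
        rw [Finset.mem_Icc] at hu
        refine ⟨Finset.orderEmbOfFin_mem A rfl u, ?_, ?_⟩
        · rw [← hi]; exact (A.orderEmbOfFin rfl).le_iff_le.2 hu.1
        · rw [← hj]; exact (A.orderEmbOfFin rfl).le_iff_le.2 hu.2
    rw [himg, Finset.sum_image]
    intro u _ v _ h
    exact (A.orderEmbOfFin rfl).injective h

theorem prob_eq (p : ℝ) (n : ℕ) (Q : Finset ℕ → Prop) :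
    prob p n Q = R851CS.Pr p (Finset.Icc 1 n) Q := by
  unfold prob R851CS.Pr R851CS.Ex
  rw [Finset.sum_filter]
  apply Finset.sum_congr rfl
  intro A _
  rw [Nat.card_Icc, Nat.add_sub_cancel, mul_ite, mul_one, mul_zero]

/-- For every `0 < p < 1` there is a constant `c > 0` such that the probability that a `p`-random
subset of `{1, …, n}` has at least `c n ^ 2` different consecutive sums tends to `1` as `n → ∞`. -/
theorem result (p : ℝ) (h0 : 0 < p) (h1 : p < 1) : ∃ c : ℝ, 0 < c ∧
    Tendsto (fun n : ℕ => prob p n (fun A => c * (n : ℝ) ^ 2 ≤ ((consecutiveSums A).card : ℝ)))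
      atTop (𝓝 1) := by
  obtain ⟨c, hc, h⟩ := R851CS.final h0 h1
  refine ⟨c, hc, ?_⟩
  have hle : ∀ n : ℕ, R851CS.Pr p (Finset.Icc 1 n) (fun A => c * (n : ℝ) ^ 2 ≤ (R851CS.consecSums A).card)
      ≤ prob p n (fun A => c * (n : ℝ) ^ 2 ≤ ((consecutiveSums A).card : ℝ)) := by
    intro n
    rw [prob_eq]
    apply R851CS.Pr_mono h0.le h1.le
    intro A _ hA
    refine hA.trans ?_
    exact_mod_cast Finset.card_le_card (sub_consecutiveSums A)
  rw [tendsto_order]
  constructor
  · intro a ha
    filter_upwards [h a ha] with n hn
    exact hn.trans_le (hle n)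
  · intro a ha
    refine Eventually.of_forall (fun n => ?_)
    rw [prob_eq]
    exact (R851CS.Pr_le_one h0.le h1.le).trans_lt ha

end Pool.Agent.Results.MP_a40b8c_co.RandomConsecutiveSums
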